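import Pool.Agent.Lib.Helper20.Collatz.GapD

set_option autoImplicit false

/-!
Quantitative version: a power saving bound for the exceptional set gives an explicit constant.
-/

namespace H20CollatzS

open Filter

/-- the constant of the expected normal order of the total stopping time -/
noncomputable def gam : ℝ := 2 / Real.log (4 / 3)

/-- the positive density theorem -/
def DensE (ε : ℝ) : Prop :=
  ∃ c C : ℝ, 0 < c ∧ 0 < C ∧ ∀ a x : ℕ, ¬ 3 ∣ a → a ≤ x →
      c * ((x : ℝ) / (a : ℝ)) ≤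
        (Set.ncard {n : ℕ | n ≤ x ∧ c * (x : ℝ) ≤ (n : ℝ) ∧
          ∃ k : ℕ, T^[k] n = a ∧ (∀ j < k, T^[j] n ≠ a) ∧
            |(k : ℝ) - gam * Real.log ((x : ℝ) / (a : ℝ))| ≤
              ε * Real.log ((x : ℝ) / (a : ℝ)) + C} : ℝ)

theorem gam_pos : 0 < gam := div_pos two_pos (Real.log_pos (by norm_num))

theorem gam_log2 : 1 ≤ gam * Real.log 2 := by
  have h1 : 0 < Real.log (4 / 3) := Real.log_pos (by norm_num)
  have h2 : Real.log (4 / 3) ≤ Real.log 2 := Real.log_le_log (by norm_num) (by norm_num)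
  unfold gam
  rw [div_mul_eq_mul_div, le_div_iff₀ h1]
  linarith

/-- one bad number forces many bad numbers, with the expected times -/
theorem single_bad' (hD : ∀ ε : ℝ, 0 < ε → DensE ε) (ε : ℝ) (hε : 0 < ε) :
    ∃ κ C : ℝ, 0 < κ ∧ 0 < C ∧ ∀ (c : ℝ) (n x : ℕ), 3 ≤ n → ¬ 3 ∣ n → n ≤ x → 0 ≤ c →
    (∀ k : ℕ, (k : ℝ) ≤ c * Real.log x - (gam - ε) * Real.log ((x : ℝ) / n) + C →
      T^[k] n ≠ 1) →
    κ * ((x : ℝ) / n) ≤ (E c x).ncard := by
  obtain ⟨κ, C, hκ, hC, H⟩ := hD ε hε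
  refine ⟨κ, C, hκ, hC, fun c n x hn h3 hx hc hbad => (H n x h3 hx).trans ?_⟩
  norm_cast
  refine Set.ncard_le_ncard ?_ (E_finite c x)
  rintro m ⟨h2, hm, k, hk, -, hk3⟩
  have hx0 : (0 : ℝ) < x := by
    have : 0 < x := by omega
    exact_mod_cast this
  have hm0 : (0 : ℝ) < m := lt_of_lt_of_le (by positivity) hm
  have h1 : 1 ≤ m := by exact_mod_cast hm0
  refine ⟨h1, h2, ?_⟩
  intro i hi hi1
  have hlog : Real.log m ≤ Real.log x := Real.log_le_log hm0 (by exact_mod_cast h2)
  rcases le_or_gt k i with hki | hki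
  · rw [iter_split hki, hk] at hi1
    refine hbad (i - k) ?_ hi1
    have e1 : ((i - k : ℕ) : ℝ) = i - k := by push_cast [hki]; ring
    have e2 := (abs_le.1 hk3).1
    have e3 : c * Real.log m ≤ c * Real.log x := mul_le_mul_of_nonneg_left hlog hc
    rw [e1]
    linarith
  · rw [iter_split hki.le, hi1] at hk
    rcases iter_one (k - i) with h | h <;> omega

/-- from a power saving bound to an explicit bound for large `n` prime to 3 -/
theorem transfer_large (hD : ∀ ε : ℝ, 0 < ε → DensE ε) {c β A : ℝ} (hc : gam < c)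
    (hβ0 : 0 ≤ β) (hβ1 : β < 1) (hA : ∀ x : ℕ, ((E c x).ncard : ℝ) ≤ A * (x : ℝ) ^ β)
    {δ : ℝ} (hδ : 0 < δ) :
    ∃ L0 : ℝ, 0 ≤ L0 ∧ ∀ n : ℕ, 3 ≤ n → ¬ 3 ∣ n → L0 ≤ Real.log n →
      ∃ k : ℕ, T^[k] n = 1 ∧ (k : ℝ) ≤ (gam + (c - gam) / (1 - β) + δ) * Real.log n := by
  have hγ := gam_pos
  have hcγ : 0 < c - gam := by linarith
  have h1β : 0 < 1 - β := by linarith
  set D := (c - gam) / (1 - β) with hDdef
  set η := δ / (4 * (c - gam)) with hη
  have hη0 : 0 < η := by positivity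
  have hηe : (c - gam) * η = δ / 4 := by rw [hη]; field_simp
  set θ := 1 / (1 - β) + η with hθ
  have hθ1 : 1 < θ := by
    have : 1 ≤ 1 / (1 - β) := by rw [le_div_iff₀ h1β]; linarith
    linarith
  have hθe : (1 - β) * θ = 1 + η * (1 - β) := by rw [hθ]; field_simp
  have hDe : (c - gam) * θ = D + δ / 4 := by
    rw [hθ, mul_add, hηe, hDdef]; ring
  set ε := δ / (4 * θ) with hεdef
  have hε0 : 0 < ε := by positivity
  have hεe : ε * θ = δ / 4 := by rw [hεdef]; field_simp
  obtain ⟨κ, C, hκ, hC, H⟩ := single_bad' hD ε hε0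
  set A' := max A 1 with hA'
  have hA'1 : 1 ≤ A' := le_max_right _ _
  have hl2 : 0 < Real.log 2 := Real.log_pos (by norm_num)
  set L1 := 2 * (gam * Real.log 2 + C) / δ with hL1
  set L2 := (|Real.log (A' / κ)| + Real.log 2 + 1) / (η * (1 - β)) with hL2
  have hL10 : 0 ≤ L1 := by positivity
  refine ⟨max L1 L2, le_max_of_le_left hL10, fun n hn h3 hL => ?_⟩
  by_contra hcon
  push Not at hcon
  have hn0 : (0 : ℝ) < n := by exact_mod_cast (show 0 < n by omega)
  have hn1 : (1 : ℝ) ≤ n := by exact_mod_cast (show 1 ≤ n by omega)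
  set ℓ := Real.log n with hℓ
  have hℓ0 : 0 ≤ ℓ := Real.log_nonneg hn1
  have hnθ : (n : ℝ) ≤ (n : ℝ) ^ θ := by
    calc (n : ℝ) = (n : ℝ) ^ (1 : ℝ) := (Real.rpow_one _).symm
      _ ≤ (n : ℝ) ^ θ := Real.rpow_le_rpow_of_exponent_le hn1 hθ1.le
  set x := ⌊(n : ℝ) ^ θ⌋₊ with hx
  have hnx : n ≤ x := Nat.le_floor hnθ
  have hx1 : 1 ≤ x := by omega
  have hx0 : (0 : ℝ) < x := by exact_mod_cast hx1
  have hxle : (x : ℝ) ≤ (n : ℝ) ^ θ := Nat.floor_le (by positivity)
  have hxge : (n : ℝ) ^ θ / 2 ≤ x := by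
    have h4 := Nat.lt_floor_add_one ((n : ℝ) ^ θ)
    have h5 : (1 : ℝ) ≤ x := by exact_mod_cast hx1
    have h6 : (n : ℝ) ^ θ < (x : ℝ) + 1 := h4
    linarith
  have hlx1 : Real.log x ≤ θ * ℓ := by
    rw [hℓ, ← Real.log_rpow hn0]
    exact Real.log_le_log hx0 hxle
  have hlx2 : θ * ℓ - Real.log 2 ≤ Real.log x := by
    rw [hℓ, ← Real.log_rpow hn0, ← Real.log_div (by positivity) (by norm_num)]
    exact Real.log_le_log (by positivity) hxge
  have hlxn : Real.log ((x : ℝ) / n) = Real.log x - ℓ := by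
    rw [Real.log_div hx0.ne' hn0.ne']
  have hbad : ∀ k : ℕ, (k : ℝ) ≤ c * Real.log x - (gam - ε) * Real.log ((x : ℝ) / n) + C →
      T^[k] n ≠ 1 := by
    intro k hk hk1
    have h7 := hcon k hk1
    rw [hlxn] at hk
    have e1 : c * Real.log x ≤ c * (θ * ℓ) := mul_le_mul_of_nonneg_left hlx1 (by linarith)
    have e2 : gam * (θ * ℓ - Real.log 2 - ℓ) ≤ gam * (Real.log x - ℓ) :=
      mul_le_mul_of_nonneg_left (by linarith) hγ.le
    have e3 : ε * (Real.log x - ℓ) ≤ ε * (θ * ℓ) :=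
      mul_le_mul_of_nonneg_left (by linarith) hε0.le
    have e4 : c * (θ * ℓ) - gam * (θ * ℓ - ℓ) = (gam + ((c - gam) * θ)) * ℓ := by ring
    have e5 : ε * (θ * ℓ) = δ / 4 * ℓ := by rw [← hεe]; ring
    rw [hDe] at e4
    have e6 : gam * Real.log 2 + C ≤ δ / 2 * ℓ := by
      have : L1 ≤ ℓ := (le_max_left _ _).trans hL
      rw [hL1, div_le_iff₀ hδ] at this
      linarith
    nlinarith
  have hkey := (H c n x hn h3 hnx (by linarith) hbad).trans (hA x)
  have hkey2 : κ * ((x : ℝ) / n) ≤ A' * (x : ℝ) ^ β :=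
    hkey.trans (mul_le_mul_of_nonneg_right (le_max_left _ _) (by positivity))
  have hlogs : Real.log κ + (Real.log x - ℓ) ≤ Real.log A' + β * Real.log x := by
    have h8 := Real.log_le_log (by positivity) hkey2
    rw [Real.log_mul hκ.ne' (by positivity), Real.log_mul (by positivity) (by positivity),
      Real.log_rpow hx0, hlxn] at h8
    exact h8
  have h9 : Real.log (A' / κ) = Real.log A' - Real.log κ :=
    Real.log_div (by positivity) hκ.ne'
  have h10 := le_abs_self (Real.log (A' / κ))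
  have h11 : (1 - β) * (θ * ℓ - Real.log 2) ≤ (1 - β) * Real.log x :=
    mul_le_mul_of_nonneg_left hlx2 h1β.le
  have h12 : (1 - β) * (θ * ℓ) = ℓ + η * (1 - β) * ℓ := by
    rw [← mul_assoc, hθe]; ring
  have h13 : |Real.log (A' / κ)| + Real.log 2 + 1 ≤ η * (1 - β) * ℓ := by
    have : L2 ≤ ℓ := (le_max_right _ _).trans hL
    rw [hL2, div_le_iff₀ (by positivity)] at this
    linarith
  have h14 : (1 - β) * Real.log 2 ≤ Real.log 2 := by nlinarith
  nlinarith

/-- a power saving bound for the exceptional set gives an explicit constant for all `n` -/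
theorem transfer (hD : ∀ ε : ℝ, 0 < ε → DensE ε) (hU : Uniform 1) {c β A : ℝ} (hc : gam < c)
    (hβ0 : 0 ≤ β) (hβ1 : β < 1) (hA : ∀ x : ℕ, ((E c x).ncard : ℝ) ≤ A * (x : ℝ) ^ β)
    {δ : ℝ} (hδ : 0 < δ) :
    ∃ B : ℝ, ∀ n : ℕ, 1 ≤ n →
      ∃ k : ℕ, T^[k] n = 1 ∧ (k : ℝ) ≤ (gam + (c - gam) / (1 - β) + δ) * Real.log n + B := by
  obtain ⟨c0, hc0⟩ := (iff_exceptional one_pos hU).2 ⟨c, β, A, hβ1, hA⟩
  obtain ⟨L0, hL0, hlarge⟩ := transfer_large hD hc hβ0 hβ1 hA hδ
  have hγ := gam_pos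
  have h1β : 0 < 1 - β := by linarith
  set c' := gam + (c - gam) / (1 - β) + δ with hc'
  have hD0 : 0 ≤ (c - gam) / (1 - β) := div_nonneg (by linarith) h1β.le
  have hc'0 : 0 < c' := by linarith
  have hl2 : 0 < Real.log 2 := Real.log_pos (by norm_num)
  have hc'2 : 1 ≤ c' * Real.log 2 := by
    have := gam_log2
    have h : gam * Real.log 2 ≤ c' * Real.log 2 :=
      mul_le_mul_of_nonneg_right (by linarith) hl2.le
    linarith
  set B0 := |c0| * L0 with hB0
  have hB00 : 0 ≤ B0 := by positivity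
  have hprime : ∀ n : ℕ, 1 ≤ n → ¬ 3 ∣ n → ∃ k : ℕ, T^[k] n = 1 ∧
      (k : ℝ) ≤ c' * Real.log n + B0 := by
    intro n hn h3
    rcases Nat.lt_or_ge n 2 with h | h
    · have : n = 1 := by omega
      subst this
      exact ⟨0, rfl, by simpa using hB00⟩
    · have hln : 0 ≤ Real.log n := Real.log_nonneg (by exact_mod_cast hn)
      rcases le_or_gt L0 (Real.log n) with hL | hL
      · rcases Nat.lt_or_ge n 3 with h' | h'
        · have : n = 2 := by omega
          subst this
          refine ⟨1, by rw [Function.iterate_one]; exact T2, ?_⟩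
          push_cast
          linarith
        · obtain ⟨k, hk1, hk2⟩ := hlarge n h' h3 hL
          exact ⟨k, hk1, by linarith⟩
      · obtain ⟨k, hk1, hk2⟩ := hc0 n h
        refine ⟨k, hk1, hk2.trans ?_⟩
        have h15 : c0 * Real.log n ≤ |c0| * Real.log n :=
          mul_le_mul_of_nonneg_right (le_abs_self _) hln
        have h16 : |c0| * Real.log n ≤ B0 := mul_le_mul_of_nonneg_left hL.le (abs_nonneg _)
        have h17 : 0 ≤ c' * Real.log n := by positivity
        linarith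
  refine ⟨B0 + 1 + c' * Real.log 2, fun n => ?_⟩
  induction n using Nat.strong_induction_on with
  | _ n ih =>
    intro hn
    have hn0 : (0 : ℝ) < n := by exact_mod_cast hn
    by_cases h3 : 3 ∣ n
    · rcases Nat.mod_two_eq_zero_or_one n with h | h
      · obtain ⟨m, hm⟩ : ∃ m, n = 2 * m := ⟨n / 2, by omega⟩
        have hm1 : 1 ≤ m := by omega
        obtain ⟨k, hk1, hk2⟩ := ih m (by omega) hm1
        have hTn : T n = m := by rw [T_even h]; omega
        refine ⟨k + 1, by rw [Function.iterate_succ_apply, hTn]; exact hk1, ?_⟩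
        have hlog : Real.log n = Real.log 2 + Real.log m := by
          rw [hm]; push_cast
          rw [Real.log_mul (by norm_num)]
          have : (0 : ℝ) < m := by exact_mod_cast hm1
          exact this.ne'
        rw [hlog]
        push_cast
        linarith
      · set m := T n with hm
        have hm2 : 2 * m = 3 * n + 1 := by rw [hm, T_odd h]; omega
        obtain ⟨k, hk1, hk2⟩ := hprime m (by omega) (by omega)
        refine ⟨k + 1, by rw [Function.iterate_succ_apply, ← hm]; exact hk1, ?_⟩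
        have hm0 : (0 : ℝ) < m := by
          have : 0 < m := by omega
          exact_mod_cast this
        have hmle : (m : ℝ) ≤ 2 * n := by exact_mod_cast (show m ≤ 2 * n by omega)
        have hlog : Real.log m ≤ Real.log 2 + Real.log n := by
          rw [← Real.log_mul (by norm_num) hn0.ne']
          exact Real.log_le_log hm0 hmle
        have h18 : c' * Real.log m ≤ c' * (Real.log 2 + Real.log n) :=
          mul_le_mul_of_nonneg_left hlog hc'0.le
        push_cast
        linarith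
    · obtain ⟨k, hk1, hk2⟩ := hprime n hn h3
      have : 0 < c' * Real.log 2 := by positivity
      exact ⟨k, hk1, by linarith⟩

end H20CollatzS
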