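import Mathlib
import Pool.Agent.Lib.Helper20.Collatz.GapQ
import Pool.Agent.Lib.H78P.Final

set_option autoImplicit false

/-!
Exceptional sets for the logarithmic bound of the total stopping time: a single violation forces a
proportion `κ / n` of violations, a power saving bound for the exceptional set gives Q1 with an
explicit constant, and the counterexamples to the `3x+1` conjecture are empty or of positive lower
density.
-/

namespace Pool.Agent.Results.MP_a1568a_nt.ExceptionalSets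

open Filter H20CollatzS

theorem densE (ε : ℝ) (hε : 0 < ε) : DensE ε := by
  have hT : T = fun m : ℕ => if m % 2 = 0 then m / 2 else (3 * m + 1) / 2 := rfl
  unfold DensE gam
  rw [hT]
  exact H78P.positive_density ε hε

theorem uniform : Uniform 1 := uniform_of_dens (H78P.positive_density 1 one_pos)

theorem result :
    (∀ ε : ℝ, 0 < ε → ∃ κ C : ℝ, 0 < κ ∧ 0 < C ∧ ∀ (c : ℝ) (n x : ℕ),
      3 ≤ n → ¬ 3 ∣ n → n ≤ x → 0 ≤ c →
      (∀ k : ℕ, (k : ℝ) ≤ c * Real.log x - (gam - ε) * Real.log ((x : ℝ) / n) + C →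
        T^[k] n ≠ 1) →
      κ * ((x : ℝ) / n) ≤ (E c x).ncard) ∧
    (∀ c β A δ : ℝ, gam < c → 0 ≤ β → β < 1 →
      (∀ x : ℕ, ((E c x).ncard : ℝ) ≤ A * (x : ℝ) ^ β) → 0 < δ →
      ∃ B : ℝ, ∀ n : ℕ, 1 ≤ n → ∃ k : ℕ, T^[k] n = 1 ∧
        (k : ℝ) ≤ (gam + (c - gam) / (1 - β) + δ) * Real.log n + B) ∧
    ((∃ c, Q1 c) ↔ ∃ c β A : ℝ, β < 1 ∧
      ∀ x : ℕ, ((E c x).ncard : ℝ) ≤ A * (x : ℝ) ^ β) ∧
    (∀ ε : ℝ, 0 < ε → ε < 1 → ((∃ c, Q1 c) ↔ ∃ c β A : ℝ, β < 1 - ε ∧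
      ∀ x : ℕ, ((F c ε x).ncard : ℝ) ≤ A * (x : ℝ) ^ β)) ∧
    ((∀ n : ℕ, 1 ≤ n → ∃ k, T^[k] n = 1) ↔
      ∀ δ : ℝ, 0 < δ → ∃ᶠ x : ℕ in atTop, ((N x).ncard : ℝ) < δ * x) := by
  refine ⟨fun ε hε => single_bad' densE ε hε,
    fun c β A δ hc h0 h1 hA hδ => transfer densE uniform hc h0 h1 hA hδ,
    iff_exceptional one_pos uniform, fun ε h0 h1 => ?_, iff_counter uniform⟩
  have h := iff_descent one_pos uniform h0 h1
  simpa only [one_mul] using h

end Pool.Agent.Results.MP_a1568a_nt.ExceptionalSets
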