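import Pool.Agent.Lib.Helper20.Collatz.GapS

set_option autoImplicit false

/-!
From the positive density theorem to the uniform predecessor bound with exponent `1`, and the
positive lower density of the counterexamples.
-/

namespace H20CollatzS

open Filter

/-- the positive density theorem with `ε = 1` -/
def Dens : Prop :=
  ∃ c C : ℝ, 0 < c ∧ 0 < C ∧ ∀ a x : ℕ, ¬ 3 ∣ a → a ≤ x →
      c * ((x : ℝ) / (a : ℝ)) ≤
        (Set.ncard {n : ℕ | n ≤ x ∧ c * (x : ℝ) ≤ (n : ℝ) ∧
          ∃ k : ℕ, (fun m : ℕ => if m % 2 = 0 then m / 2 else (3 * m + 1) / 2)^[k] n = a ∧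
            (∀ j < k, (fun m : ℕ => if m % 2 = 0 then m / 2 else (3 * m + 1) / 2)^[j] n ≠ a) ∧
            |(k : ℝ) - 2 / Real.log (4 / 3) * Real.log ((x : ℝ) / (a : ℝ))| ≤
              1 * Real.log ((x : ℝ) / (a : ℝ)) + C} : ℝ)

theorem uniform_of_dens (h : Dens) : Uniform 1 := by
  obtain ⟨c, C, hc, hC, H⟩ := h
  have hl2 : (0 : ℝ) < Real.log 2 := Real.log_pos (by norm_num)
  have hl43 : (0 : ℝ) < Real.log (4 / 3) := Real.log_pos (by norm_num)
  set A : ℝ := 2 / Real.log (4 / 3) + 1 with hA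
  have hA0 : 0 < A := by positivity
  set B : ℝ := A * |Real.log c| + C with hB
  have hB0 : 0 < B := by positivity
  set C' : ℝ := A + B / Real.log 2 with hC'
  have hC'0 : 0 < C' := by positivity
  refine ⟨c / 2, C', by positivity, hC'0, fun a x ha hax => ?_⟩
  have ha1 : 1 ≤ a := by
    rcases Nat.eq_zero_or_pos a with h | h
    · subst h; exact absurd (dvd_zero 3) ha
    · exact h
  have hx1 : 1 ≤ x := ha1.trans hax
  have ha0 : (0 : ℝ) < a := by exact_mod_cast ha1
  have hx0 : (0 : ℝ) < x := by exact_mod_cast hx1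
  set S' : Set ℕ := {n : ℕ | 1 ≤ n ∧ n ≤ x ∧
          ∃ k : ℕ, T^[k] n = a ∧ (k : ℝ) ≤ C' * Real.log (n : ℝ)} with hS'
  have hfin : S'.Finite := (Set.finite_Icc 1 x).subset fun n hn => ⟨hn.1, hn.2.1⟩
  have haS : a ∈ S' := by
    refine ⟨ha1, hax, 0, rfl, ?_⟩
    have : 0 ≤ Real.log (a : ℝ) := Real.log_nonneg (by exact_mod_cast ha1)
    push_cast
    positivity
  have h1 : (1 : ℝ) ≤ S'.ncard := by
    have : 0 < S'.ncard := (Set.ncard_pos hfin).2 ⟨a, haS⟩
    exact_mod_cast this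
  have h2 := H a x ha hax
  have h3 : Set.ncard {n : ℕ | n ≤ x ∧ c * (x : ℝ) ≤ (n : ℝ) ∧
          ∃ k : ℕ, (fun m : ℕ => if m % 2 = 0 then m / 2 else (3 * m + 1) / 2)^[k] n = a ∧
            (∀ j < k, (fun m : ℕ => if m % 2 = 0 then m / 2 else (3 * m + 1) / 2)^[j] n ≠ a) ∧
            |(k : ℝ) - 2 / Real.log (4 / 3) * Real.log ((x : ℝ) / (a : ℝ))| ≤
              1 * Real.log ((x : ℝ) / (a : ℝ)) + C} ≤ S'.ncard + 1 := by
    refine (Set.ncard_le_ncard ?_ (hfin.insert 1)).trans (Set.ncard_insert_le 1 S')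
    rintro n ⟨hn1, hn2, k, hk, -, hk3⟩
    rw [Set.mem_insert_iff]
    have hn0 : (0 : ℝ) < n := lt_of_lt_of_le (by positivity) hn2
    have hn0' : 0 < n := by exact_mod_cast hn0
    rcases Nat.lt_or_ge n 2 with h | h
    · left; omega
    · right
      refine ⟨hn0', hn1, k, hk, ?_⟩
      have hln : Real.log 2 ≤ Real.log n := Real.log_le_log (by norm_num) (by exact_mod_cast h)
      have hlx : Real.log ((x : ℝ) / a) ≤ Real.log n + |Real.log c| := by
        rw [Real.log_div hx0.ne' ha0.ne']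
        have e1 : Real.log (c * x) ≤ Real.log n := Real.log_le_log (by positivity) hn2
        rw [Real.log_mul hc.ne' hx0.ne'] at e1
        have e2 : 0 ≤ Real.log (a : ℝ) := Real.log_nonneg (by exact_mod_cast ha1)
        have e3 := neg_abs_le (Real.log c)
        linarith
      have h4 := (abs_le.1 hk3).2
      have h5 : (k : ℝ) ≤ A * Real.log ((x : ℝ) / a) + C := by
        rw [hA]; linarith
      have h6 : A * Real.log ((x : ℝ) / a) ≤ A * (Real.log n + |Real.log c|) :=
        mul_le_mul_of_nonneg_left hlx hA0.le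
      have h7 : B ≤ B / Real.log 2 * Real.log n := by
        rw [div_mul_eq_mul_div, le_div_iff₀ hl2]
        exact mul_le_mul_of_nonneg_left hln hB0.le
      calc (k : ℝ) ≤ A * Real.log n + B := by rw [hB]; linarith
        _ ≤ C' * Real.log n := by rw [hC']; linarith
  have h4 : c * ((x : ℝ) / a) ≤ S'.ncard + 1 := h2.trans (by exact_mod_cast h3)
  rw [Real.rpow_one]
  linarith

/-- numbers up to `x` that never reach 1 -/
def N (x : ℕ) : Set ℕ := {m | 1 ≤ m ∧ m ≤ x ∧ ∀ k, T^[k] m ≠ 1}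

theorem N_finite (x : ℕ) : (N x).Finite :=
  (Set.finite_Icc 1 x).subset (fun _ hm => ⟨hm.1, hm.2.1⟩)

/-- one counterexample gives a positive lower density of counterexamples -/
theorem counter (hU : Uniform 1) {n0 : ℕ} (hn0 : 1 ≤ n0) (hbad : ∀ k, T^[k] n0 ≠ 1) :
    ∃ δ : ℝ, 0 < δ ∧ ∀ᶠ x : ℕ in atTop, δ * x ≤ (N x).ncard := by
  obtain ⟨κ, C, hκ, hC, H⟩ := hU
  obtain ⟨i, hi⟩ := exists_not_three n0 hn0
  set a := T^[i] n0 with ha
  have ha1 : 1 ≤ a := iter_pos hn0 i
  have hab : ∀ k, T^[k] a ≠ 1 := fun k => by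
    rw [ha, ← Function.iterate_add_apply]; exact hbad _
  have ha0 : (0 : ℝ) < a := by exact_mod_cast ha1
  refine ⟨κ / a, by positivity, ?_⟩
  filter_upwards [eventually_ge_atTop a] with x hax
  have h1 := H a x hi hax
  rw [Real.rpow_one] at h1
  have h2 : κ / a * x = κ * ((x : ℝ) / a) := by ring
  rw [h2]
  refine h1.trans ?_
  norm_cast
  refine Set.ncard_le_ncard ?_ (N_finite x)
  rintro m ⟨hm1, hm2, j, hj, -⟩
  refine ⟨hm1, hm2, ?_⟩
  intro k hk1
  rcases le_or_gt j k with hjk | hjk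
  · rw [iter_split hjk, hj] at hk1
    exact hab _ hk1
  · rw [iter_split hjk.le, hk1] at hj
    rcases iter_one (j - k) with h | h
    · rw [h] at hj; exact hab 0 (by simpa using hj.symm)
    · rw [h] at hj; exact hab 1 (by rw [Function.iterate_one, ← hj, T2])

theorem iff_counter (hU : Uniform 1) :
    (∀ n : ℕ, 1 ≤ n → ∃ k, T^[k] n = 1) ↔
      ∀ δ : ℝ, 0 < δ → ∃ᶠ x : ℕ in atTop, ((N x).ncard : ℝ) < δ * x := by
  constructor
  · intro h δ hδ
    refine (Filter.eventually_atTop.2 ⟨1, fun x hx => ?_⟩).frequently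
    have : N x = ∅ := by
      rw [Set.eq_empty_iff_forall_notMem]
      rintro m ⟨h1, h2, h3⟩
      obtain ⟨k, hk⟩ := h m h1
      exact h3 k hk
    rw [this, Set.ncard_empty]
    have : (0 : ℝ) < x := by exact_mod_cast hx
    push_cast
    positivity
  · intro h n0 hn0
    by_contra hcon
    push Not at hcon
    obtain ⟨δ, hδ, hev⟩ := counter hU hn0 hcon
    refine h δ hδ ?_
    filter_upwards [hev] with x hx
    rw [not_lt]
    exact hx

end H20CollatzS
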