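import Mathlib

set_option autoImplicit false

namespace H20CollatzS

open Filter

/-- the 3x+1 function -/
def T (m : ℕ) : ℕ := if m % 2 = 0 then m / 2 else (3 * m + 1) / 2

theorem T_even {m : ℕ} (h : m % 2 = 0) : T m = m / 2 := by simp [T, h]
theorem T_odd {m : ℕ} (h : m % 2 = 1) : T m = (3 * m + 1) / 2 := by simp [T, h]

theorem T_pos {m : ℕ} (h : 1 ≤ m) : 1 ≤ T m := by
  unfold T; split_ifs <;> omega

theorem iter_pos {m : ℕ} (h : 1 ≤ m) (k : ℕ) : 1 ≤ T^[k] m := by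
  induction k with
  | zero => simpa using h
  | succ k ih => rw [Function.iterate_succ_apply']; exact T_pos ih

theorem T1 : T 1 = 2 := by decide
theorem T2 : T 2 = 1 := by decide

theorem iter_one (k : ℕ) : T^[k] 1 = 1 ∨ T^[k] 1 = 2 := by
  induction k with
  | zero => left; rfl
  | succ k ih =>
    rw [Function.iterate_succ_apply']
    rcases ih with h | h
    · right; rw [h, T1]
    · left; rw [h, T2]

theorem iter_split {k j : ℕ} (h : k ≤ j) (m : ℕ) : T^[j] m = T^[j - k] (T^[k] m) := by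
  rw [← Function.iterate_add_apply, Nat.sub_add_cancel h]

/-- every orbit contains a number prime to 3 -/
theorem exists_not_three (n : ℕ) (hn : 1 ≤ n) : ∃ i, ¬ 3 ∣ T^[i] n := by
  induction n using Nat.strong_induction_on with
  | _ n ih =>
    by_cases h3 : 3 ∣ n
    · rcases Nat.mod_two_eq_zero_or_one n with h | h
      · obtain ⟨i, hi⟩ := ih (n / 2) (by omega) (by omega)
        exact ⟨i + 1, by rw [Function.iterate_succ_apply, T_even h]; exact hi⟩
      · refine ⟨1, ?_⟩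
        rw [Function.iterate_one, T_odd h]
        omega
    · exact ⟨0, by simpa using h3⟩

/-- uniform predecessor bound with exponent `s` -/
def Uniform (s : ℝ) : Prop :=
  ∃ κ C : ℝ, 0 < κ ∧ 0 < C ∧ ∀ a x : ℕ, ¬ 3 ∣ a → a ≤ x →
      κ * ((x : ℝ) / (a : ℝ)) ^ s ≤
        (Set.ncard {n : ℕ | 1 ≤ n ∧ n ≤ x ∧
          ∃ k : ℕ, T^[k] n = a ∧ (k : ℝ) ≤ C * Real.log (n : ℝ)} : ℝ)

/-- Q1 with constant `c` -/
def Q1 (c : ℝ) : Prop := ∀ n : ℕ, 2 ≤ n → ∃ k : ℕ, T^[k] n = 1 ∧ (k : ℝ) ≤ c * Real.log n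

/-- exceptional numbers up to `x`: never reaching 1, or staying above `m ^ ε` for `c log m` steps -/
def F (c ε : ℝ) (x : ℕ) : Set ℕ :=
  {m | 1 ≤ m ∧ m ≤ x ∧ ((∀ k, T^[k] m ≠ 1) ∨
    ∀ k : ℕ, (k : ℝ) ≤ c * Real.log m → (m : ℝ) ^ ε < (T^[k] m : ℕ))}

/-- numbers up to `x` not reaching 1 within `c log m` steps -/
def E (c : ℝ) (x : ℕ) : Set ℕ :=
  {m | 1 ≤ m ∧ m ≤ x ∧ ∀ k : ℕ, (k : ℝ) ≤ c * Real.log m → T^[k] m ≠ 1}

theorem F_finite (c ε : ℝ) (x : ℕ) : (F c ε x).Finite :=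
  (Set.finite_Icc 1 x).subset (fun _ hm => ⟨hm.1, hm.2.1⟩)

theorem E_finite (c : ℝ) (x : ℕ) : (E c x).Finite :=
  (Set.finite_Icc 1 x).subset (fun _ hm => ⟨hm.1, hm.2.1⟩)

theorem F_subset_E {c ε : ℝ} (hε : 0 ≤ ε) (x : ℕ) : F c ε x ⊆ E c x := by
  rintro m ⟨h1, h2, h3⟩
  refine ⟨h1, h2, ?_⟩
  rintro k hk hk1
  rcases h3 with h3 | h3
  · exact h3 k hk1
  · have := h3 k hk
    rw [hk1] at this
    have h4 : (1 : ℝ) ≤ (m : ℝ) ^ ε := Real.one_le_rpow (by exact_mod_cast h1) hε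
    norm_num at this
    linarith

/-- one bad number forces many bad numbers -/
theorem single_bad {s : ℝ} (hU : Uniform s) : ∃ κ : ℝ, 0 < κ ∧ ∀ (c : ℝ) (n x : ℕ), 3 ≤ n → ¬ 3 ∣ n → n ≤ x →
    0 ≤ c →
    (∀ k : ℕ, (k : ℝ) ≤ c * Real.log x → T^[k] n ≠ 1) →
    κ * ((x : ℝ) / n) ^ s ≤ (E c x).ncard := by
  obtain ⟨κ, C, hκ, hC, H⟩ := hU
  refine ⟨κ, hκ, fun c n x hn h3 hx hc hbad => (H n x h3 hx).trans ?_⟩
  norm_cast
  refine Set.ncard_le_ncard ?_ (E_finite c x)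
  rintro m ⟨h1, h2, j, hj, -⟩
  refine ⟨h1, h2, ?_⟩
  intro k hk hk1
  have hlog : Real.log m ≤ Real.log x :=
    Real.log_le_log (by exact_mod_cast h1) (by exact_mod_cast h2)
  rcases le_or_gt j k with hjk | hjk
  · rw [iter_split hjk, hj] at hk1
    refine hbad (k - j) ?_ hk1
    have : ((k - j : ℕ) : ℝ) ≤ k := by exact_mod_cast Nat.sub_le _ _
    nlinarith
  · rw [iter_split hjk.le, hk1] at hj
    rcases iter_one (j - k) with h | h <;> omega

/-- case A: some number never reaches 1 -/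
theorem caseA {s : ℝ} (hU : Uniform s) {n0 : ℕ} (hn0 : 1 ≤ n0) (hbad : ∀ k, T^[k] n0 ≠ 1)
    (c ε β : ℝ) (hβ : β < s) :
    ∀ᶠ x : ℕ in atTop, (x : ℝ) ^ β ≤ (F c ε x).ncard := by
  obtain ⟨κ, C, hκ, hC, H⟩ := hU
  obtain ⟨i, hi⟩ := exists_not_three n0 hn0
  set a := T^[i] n0 with ha
  have ha1 : 1 ≤ a := iter_pos hn0 i
  have hab : ∀ k, T^[k] a ≠ 1 := fun k => by
    rw [ha, ← Function.iterate_add_apply]; exact hbad _
  have hpow : Tendsto (fun x : ℕ => (x : ℝ) ^ (s - β)) atTop atTop :=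
    (tendsto_rpow_atTop (by linarith)).comp tendsto_natCast_atTop_atTop
  have ha0 : (0 : ℝ) < a := by exact_mod_cast ha1
  filter_upwards [hpow.eventually_ge_atTop ((a : ℝ) ^ s / κ),
    eventually_ge_atTop a] with x hx hax
  have hx0 : (0 : ℝ) < x := by
    have : 1 ≤ x := ha1.trans hax
    exact_mod_cast this
  have h1 : (x : ℝ) ^ β ≤ κ * ((x : ℝ) / a) ^ s := by
    rw [Real.div_rpow hx0.le ha0.le, Real.rpow_sub hx0] at *
    have hxb : 0 < (x : ℝ) ^ β := Real.rpow_pos_of_pos hx0 _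
    have hab' : 0 < (a : ℝ) ^ s := Real.rpow_pos_of_pos ha0 _
    rw [div_le_div_iff₀ hκ hxb] at hx
    rw [mul_div_assoc', le_div_iff₀ hab']
    linarith
  refine h1.trans ((H a x hi hax).trans ?_)
  norm_cast
  refine Set.ncard_le_ncard ?_ (F_finite c ε x)
  rintro m ⟨hm1, hm2, j, hj, -⟩
  refine ⟨hm1, hm2, Or.inl ?_⟩
  intro k hk1
  rcases le_or_gt j k with hjk | hjk
  · rw [iter_split hjk, hj] at hk1
    exact hab _ hk1
  · rw [iter_split hjk.le, hk1] at hj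
    rcases iter_one (j - k) with h | h
    · rw [h] at hj; exact hab 0 (by simpa using hj.symm)
    · rw [h] at hj; exact hab 1 (by rw [Function.iterate_one, ← hj, T2])

/-- total stopping time when every orbit reaches 1 -/
theorem sigma_exists (hall : ∀ n : ℕ, 1 ≤ n → ∃ k, T^[k] n = 1) :
    ∃ σ : ℕ → ℕ, (∀ n, 1 ≤ n → T^[σ n] n = 1) ∧ ∀ n, 1 ≤ n → ∀ k, T^[k] n = 1 → σ n ≤ k := by
  classical
  refine ⟨fun n => if h : 1 ≤ n then Nat.find (hall n h) else 0, ?_, ?_⟩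
  · intro n hn
    simp only [hn, dif_pos]
    exact Nat.find_spec (hall n hn)
  · intro n hn k hk
    simp only [hn, dif_pos]
    exact Nat.find_min' _ hk

theorem sigma_step {σ : ℕ → ℕ} (h1 : ∀ n, 1 ≤ n → T^[σ n] n = 1)
    (h2 : ∀ n, 1 ≤ n → ∀ k, T^[k] n = 1 → σ n ≤ k) {n : ℕ} (hn : 1 ≤ n) (j : ℕ) :
    σ n ≤ j + σ (T^[j] n) := by
  refine h2 n hn _ ?_
  rw [add_comm, Function.iterate_add_apply]
  exact h1 _ (iter_pos hn j)

/-- facts about a minimal number with large total stopping time -/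
theorem minimal_facts {σ : ℕ → ℕ} (h1 : ∀ n, 1 ≤ n → T^[σ n] n = 1)
    (h2 : ∀ n, 1 ≤ n → ∀ k, T^[k] n = 1 → σ n ≤ k) {K : ℝ} (hK : 2 ≤ K) {n : ℕ} (hn : 2 ≤ n)
    (hb : K * Real.log n < σ n)
    (hmin : ∀ z : ℕ, 2 ≤ z → z < n → (σ z : ℝ) ≤ K * Real.log z) :
    n % 2 = 1 ∧ 3 ≤ n ∧ (∀ z i : ℕ, 1 ≤ z → T^[i] z = T n → n ≤ z) ∧
      (∀ j : ℕ, (j : ℝ) < K * Real.log n → Real.log n - j / K ≤ Real.log ((T^[j] n : ℕ) : ℝ)) := by
  have hl2 : (0.6 : ℝ) < Real.log 2 := lt_trans (by norm_num) Real.log_two_gt_d9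
  have hodd : n % 2 = 1 := by
    by_contra hcon
    have he : n % 2 = 0 := by omega
    set z := n / 2 with hz
    have hnz : n = 2 * z := by omega
    have hTz : T n = z := by rw [T_even he]
    have hz1 : 1 ≤ z := by omega
    have hs : σ n ≤ 1 + σ z := by
      have := sigma_step h1 h2 (show 1 ≤ n by omega) 1
      rwa [Function.iterate_one, hTz] at this
    have hs' : (σ n : ℝ) ≤ 1 + σ z := by exact_mod_cast hs
    have hlog : Real.log n = Real.log 2 + Real.log z := by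
      rw [hnz]; push_cast
      rw [Real.log_mul (by norm_num) (by positivity)]
    rcases Nat.lt_or_ge z 2 with hz2 | hz2
    · have hz' : z = 1 := by omega
      have : σ z = 0 := Nat.le_zero.1 (h2 z hz1 0 (by rw [hz']; rfl))
      rw [this] at hs'
      rw [hz'] at hlog
      simp at hlog
      rw [hlog] at hb
      push_cast at hs'
      nlinarith
    · have := hmin z hz2 (by omega)
      rw [hlog] at hb
      nlinarith
  have hn3 : 3 ≤ n := by omega
  have hTn : 2 * T n = 3 * n + 1 := by rw [T_odd hodd]; omega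
  have hT5 : 5 ≤ T n := by omega
  refine ⟨hodd, hn3, ?_, ?_⟩
  · intro z i hz hzi
    by_contra hcon
    push Not at hcon
    have hi : i ≠ 0 := by
      rintro rfl
      simp at hzi
      omega
    have hz2 : 2 ≤ z := by
      rcases Nat.lt_or_ge z 2 with h | h
      · have hz' : z = 1 := by omega
        rw [hz'] at hzi
        rcases iter_one i with h' | h' <;> omega
      · exact h
    have hle := hmin z hz2 hcon
    have hσi : i ≤ σ z := by
      by_contra h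
      push Not at h
      rw [iter_split h.le, h1 z hz] at hzi
      rcases iter_one (i - σ z) with h' | h' <;> omega
    have h3 : T^[σ z - i] (T n) = 1 := by
      rw [← hzi, ← iter_split hσi]; exact h1 z hz
    have h4 : σ n ≤ (σ z - i) + 1 := by
      refine h2 n (by omega) _ ?_
      rw [Function.iterate_succ_apply]; exact h3
    have h5 : σ n ≤ σ z := by omega
    have h6 : (σ n : ℝ) ≤ σ z := by exact_mod_cast h5
    have h7 : Real.log z ≤ Real.log n :=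
      Real.log_le_log (by exact_mod_cast hz) (by exact_mod_cast hcon.le)
    nlinarith
  · intro j hj
    have hK0 : 0 < K := by linarith
    have hjσ : j < σ n := by
      have : (j : ℝ) < σ n := hj.trans hb
      exact_mod_cast this
    set y := T^[j] n with hy
    have hy1 : 1 ≤ y := iter_pos (by omega) j
    have hy2 : 2 ≤ y := by
      rcases Nat.lt_or_ge y 2 with h | h
      · have : y = 1 := by omega
        have := h2 n (by omega) j (by rw [← hy]; exact this)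
        omega
      · exact h
    have hs : (σ n : ℝ) ≤ j + σ y := by exact_mod_cast sigma_step h1 h2 (show 1 ≤ n by omega) j
    rcases le_or_gt n y with hny | hny
    · have h7 : Real.log n ≤ Real.log y :=
        Real.log_le_log (by exact_mod_cast (show 0 < n by omega)) (by exact_mod_cast hny)
      have : (0 : ℝ) ≤ j / K := by positivity
      linarith
    · have h8 := hmin y hy2 hny
      have h9 : K * Real.log n < j + K * Real.log y := by linarith
      rw [sub_le_iff_le_add, ← sub_le_iff_le_add', le_div_iff₀ hK0]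
      nlinarith

/-- the sum bound: large constants are not violated by small numbers -/
theorem small_good (σ : ℕ → ℕ) (B : ℕ) : ∃ K0 : ℝ, ∀ K : ℝ, K0 ≤ K → ∀ n : ℕ, 2 ≤ n → n ≤ B →
    (σ n : ℝ) ≤ K * Real.log n := by
  refine ⟨2 * ∑ i ∈ Finset.range (B + 1), (σ i : ℝ), fun K hK n hn hB => ?_⟩
  have hl2 : (0.6 : ℝ) < Real.log 2 := lt_trans (by norm_num) Real.log_two_gt_d9
  have h1 : Real.log 2 ≤ Real.log n := Real.log_le_log (by norm_num) (by exact_mod_cast hn)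
  have h2 : (σ n : ℝ) ≤ ∑ i ∈ Finset.range (B + 1), (σ i : ℝ) :=
    Finset.single_le_sum (f := fun i => (σ i : ℝ)) (fun i _ => by positivity)
      (Finset.mem_range.2 (by omega))
  have h3 : (0 : ℝ) ≤ σ n := by positivity
  nlinarith

/-- case B: every orbit reaches 1 but Q1 fails for every constant -/
theorem caseB {s : ℝ} (hs : 0 < s) (hU : Uniform s) (hall : ∀ n : ℕ, 1 ≤ n → ∃ k, T^[k] n = 1)
    (hQ : ∀ c, ¬ Q1 c) {c ε β : ℝ} (hε0 : 0 < ε) (hε1 : ε < 1) (hβ : β < s * (1 - ε)) :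
    ∃ᶠ x : ℕ in atTop, (x : ℝ) ^ β ≤ (F c ε x).ncard := by
  classical
  obtain ⟨σ, h1, h2⟩ := sigma_exists hall
  obtain ⟨κ, C, hκ, hC, H⟩ := hU
  -- parameters
  set β' := max β 0 with hβ'
  have hβ'0 : 0 ≤ β' := le_max_right _ _
  have hβ'1 : β' < s * (1 - ε) := by
    rw [hβ']; exact max_lt hβ (by nlinarith)
  obtain ⟨θ, hθε, hθ1, hθβ⟩ : ∃ θ : ℝ, ε < θ ∧ θ < 1 ∧ β' < s * (1 - θ) := by
    have hq : β' / s < 1 - ε := by rw [div_lt_iff₀ hs]; linarith
    have hq0 : 0 ≤ β' / s := div_nonneg hβ'0 hs.le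
    have hq1 : β' / s * s = β' := div_mul_cancel₀ _ hs.ne'
    refine ⟨(ε + (1 - β' / s)) / 2, by linarith, by linarith, ?_⟩
    nlinarith
  have hθ0 : 0 < θ := hε0.trans hθε
  have hθi : 1 < 1 / θ := by rw [lt_div_iff₀ hθ0]; linarith
  set x : ℕ → ℕ := fun n => ⌊(n : ℝ) ^ (1 / θ)⌋₊ with hx
  -- eventual facts
  have ev1 : ∀ᶠ n : ℕ in atTop, (4 : ℝ) ≤ (n : ℝ) ^ (1 / θ - 1) :=
    ((tendsto_rpow_atTop (by linarith)).comp tendsto_natCast_atTop_atTop).eventually_ge_atTop 4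
  have hexp : 0 < s * (1 / θ - 1) - β' / θ := by
    have : s * (1 / θ - 1) - β' / θ = (s * (1 - θ) - β') / θ := by field_simp
    rw [this]; exact div_pos (by linarith) hθ0
  have ev2 : ∀ᶠ n : ℕ in atTop, (4 : ℝ) ^ s / κ ≤
      (n : ℝ) ^ (s * (1 / θ - 1) - β' / θ) :=
    ((tendsto_rpow_atTop hexp).comp tendsto_natCast_atTop_atTop).eventually_ge_atTop _
  rw [Filter.frequently_atTop]
  intro X0
  obtain ⟨N0, hN0⟩ := Filter.eventually_atTop.1 (ev1.and ev2)
  obtain ⟨K0, hK0⟩ := small_good σ (max N0 X0)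
  set c' := max c 0 with hc'
  have hc'0 : 0 ≤ c' := le_max_right _ _
  have hεθ : 0 < 1 - ε / θ := by
    have : ε / θ < 1 := by rw [div_lt_one hθ0]; exact hθε
    linarith
  obtain ⟨K, hK1, hK2, hK3⟩ : ∃ K : ℝ, K0 ≤ K ∧ 2 ≤ K ∧ c' / θ + 1 < K * (1 - ε / θ) := by
    refine ⟨max (max K0 2) ((c' / θ + 2) / (1 - ε / θ)), ?_, ?_, ?_⟩
    · exact (le_max_left _ _).trans (le_max_left _ _)
    · exact (le_max_right _ _).trans (le_max_left _ _)
    · have : (c' / θ + 2) / (1 - ε / θ) * (1 - ε / θ) = c' / θ + 2 :=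
        div_mul_cancel₀ _ hεθ.ne'
      have h3 : (c' / θ + 2) / (1 - ε / θ) ≤ max (max K0 2) ((c' / θ + 2) / (1 - ε / θ)) :=
        le_max_right _ _
      nlinarith
  have hbad : ∃ n : ℕ, 2 ≤ n ∧ K * Real.log n < σ n := by
    have := hQ K
    unfold Q1 at this
    push Not at this
    obtain ⟨n, hn, hn2⟩ := this
    exact ⟨n, hn, hn2 _ (h1 n (by omega))⟩
  set n := Nat.find hbad with hndef
  obtain ⟨hn2, hnb⟩ := Nat.find_spec hbad
  rw [← hndef] at hn2 hnb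
  have hmin : ∀ z : ℕ, 2 ≤ z → z < n → (σ z : ℝ) ≤ K * Real.log z := by
    intro z hz hzn
    have := Nat.find_min hbad (hndef ▸ hzn)
    push Not at this
    exact this hz
  have hnbig : max N0 X0 < n := by
    by_contra hcon
    push Not at hcon
    have := hK0 K hK1 n hn2 hcon
    linarith
  obtain ⟨hodd, hn3, hpre, horb⟩ := minimal_facts h1 h2 hK2 hn2 hnb hmin
  obtain ⟨hn4, hn5⟩ := hN0 n (by omega)
  have hn0 : (0 : ℝ) < n := by exact_mod_cast (show 0 < n by omega)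
  have hn1 : (1 : ℝ) ≤ n := by exact_mod_cast (show 1 ≤ n by omega)
  have hlogn : 1 ≤ Real.log n := by
    rw [Real.le_log_iff_exp_le hn0]
    have : Real.exp 1 < 2.7182818286 := Real.exp_one_lt_d9
    have h3 : (3 : ℝ) ≤ n := by exact_mod_cast hn3
    linarith
  -- size of x n
  have hpow : (n : ℝ) ^ (1 / θ) = (n : ℝ) ^ (1 / θ - 1) * n := by
    rw [Real.rpow_sub_one hn0.ne']; field_simp
  have hxle : ((x n : ℕ) : ℝ) ≤ (n : ℝ) ^ (1 / θ) := Nat.floor_le (by positivity)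
  have hxge : (n : ℝ) ^ (1 / θ) / 2 ≤ (x n : ℕ) := by
    have := Nat.lt_floor_add_one ((n : ℝ) ^ (1 / θ))
    have h4n : 4 * (n : ℝ) ≤ (n : ℝ) ^ (1 / θ) := by rw [hpow]; nlinarith
    change _ ≤ ((⌊(n : ℝ) ^ (1 / θ)⌋₊ : ℕ) : ℝ)
    linarith
  have h4n : 4 * (n : ℝ) ≤ (n : ℝ) ^ (1 / θ) := by rw [hpow]; nlinarith
  have h2nx : (2 * n : ℕ) ≤ x n := by
    have : ((2 * n : ℕ) : ℝ) ≤ (x n : ℕ) := by push_cast; linarith
    exact_mod_cast this
  have hTn : 2 * T n = 3 * n + 1 := by rw [T_odd hodd]; omega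
  have ha3 : ¬ 3 ∣ T n := by omega
  have hax : T n ≤ x n := by omega
  refine ⟨x n, by omega, ?_⟩
  have hx0 : (0 : ℝ) < (x n : ℕ) := by exact_mod_cast (show 0 < x n by omega)
  have hx1 : (1 : ℝ) ≤ (x n : ℕ) := by exact_mod_cast (show 1 ≤ x n by omega)
  have ha0 : (0 : ℝ) < (T n : ℕ) := by exact_mod_cast (show 0 < T n by omega)
  -- lower bound for the count
  have hcount : ((x n : ℕ) : ℝ) ^ β ≤ κ * (((x n : ℕ) : ℝ) / (T n : ℕ)) ^ s := by
    have e1 : ((x n : ℕ) : ℝ) ^ β ≤ (n : ℝ) ^ (β' / θ) := by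
      calc ((x n : ℕ) : ℝ) ^ β ≤ ((x n : ℕ) : ℝ) ^ β' :=
            Real.rpow_le_rpow_of_exponent_le hx1 (le_max_left _ _)
        _ ≤ ((n : ℝ) ^ (1 / θ)) ^ β' := Real.rpow_le_rpow hx0.le hxle hβ'0
        _ = (n : ℝ) ^ (β' / θ) := by rw [← Real.rpow_mul hn0.le]; congr 1; ring
    have e2 : (n : ℝ) ^ (1 / θ - 1) / 4 ≤ ((x n : ℕ) : ℝ) / (T n : ℕ) := by
      have hT2 : ((T n : ℕ) : ℝ) ≤ 2 * n := by exact_mod_cast (show T n ≤ 2 * n by omega)
      rw [div_le_div_iff₀ (by norm_num) ha0]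
      have h5 : (0 : ℝ) < (n : ℝ) ^ (1 / θ - 1) := Real.rpow_pos_of_pos hn0 _
      have h6 : (n : ℝ) ^ (1 / θ - 1) * (T n : ℕ) ≤ (n : ℝ) ^ (1 / θ - 1) * (2 * n) := by
        gcongr
      nlinarith
    have e3 : ((n : ℝ) ^ (1 / θ - 1) / 4) ^ s ≤ (((x n : ℕ) : ℝ) / (T n : ℕ)) ^ s :=
      Real.rpow_le_rpow (by positivity) e2 hs.le
    have e4 : (n : ℝ) ^ (β' / θ) ≤ κ * ((n : ℝ) ^ (1 / θ - 1) / 4) ^ s := by
      rw [Real.div_rpow (by positivity) (by norm_num), ← Real.rpow_mul hn0.le]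
      have h7 : (n : ℝ) ^ ((1 / θ - 1) * s) =
          (n : ℝ) ^ (β' / θ) * (n : ℝ) ^ (s * (1 / θ - 1) - β' / θ) := by
        rw [← Real.rpow_add hn0]; congr 1; ring
      rw [h7]
      have h8 : (0 : ℝ) < (n : ℝ) ^ (β' / θ) := Real.rpow_pos_of_pos hn0 _
      have h9 : (0 : ℝ) < (4 : ℝ) ^ s := by positivity
      rw [div_le_iff₀ hκ] at hn5
      rw [mul_div_assoc', le_div_iff₀ h9]
      nlinarith
    exact e1.trans (e4.trans (mul_le_mul_of_nonneg_left e3 hκ.le))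
  refine hcount.trans ((H (T n) (x n) ha3 hax).trans ?_)
  norm_cast
  refine Set.ncard_le_ncard ?_ (F_finite c ε (x n))
  rintro m ⟨hm1, hm2, k, hk, -⟩
  refine ⟨hm1, hm2, Or.inr ?_⟩
  intro i hi
  have hm0 : (0 : ℝ) < m := by exact_mod_cast hm1
  have hlogm0 : 0 ≤ Real.log m := Real.log_nonneg (by exact_mod_cast hm1)
  have hlogm : Real.log m ≤ 1 / θ * Real.log n := by
    rw [← Real.log_rpow hn0]
    refine Real.log_le_log hm0 (le_trans ?_ hxle)
    exact_mod_cast hm2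
  -- it suffices to bound logarithms
  have key : ε / θ * Real.log n < Real.log ((T^[i] m : ℕ) : ℝ) := by
    rcases le_or_gt i k with hik | hik
    · have hz : T^[k - i] (T^[i] m) = T n := by rw [← iter_split hik, hk]
      have hnz := hpre (T^[i] m) (k - i) (iter_pos hm1 i) hz
      have h10 : Real.log n ≤ Real.log ((T^[i] m : ℕ) : ℝ) :=
        Real.log_le_log hn0 (by exact_mod_cast hnz)
      nlinarith
    · have hz : T^[i] m = T^[i - k + 1] n := by
        rw [iter_split hik.le, hk, Function.iterate_succ_apply]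
      rw [hz]
      have hj : ((i - k + 1 : ℕ) : ℝ) ≤ c' / θ * Real.log n + 1 := by
        have h11 : ((i - k + 1 : ℕ) : ℝ) ≤ i + 1 := by
          exact_mod_cast (show i - k + 1 ≤ i + 1 by omega)
        have h12 : c * Real.log m ≤ c' * Real.log m :=
          mul_le_mul_of_nonneg_right (le_max_left _ _) hlogm0
        have h13 : c' * Real.log m ≤ c' * (1 / θ * Real.log n) :=
          mul_le_mul_of_nonneg_left hlogm hc'0
        have h14 : c' * (1 / θ * Real.log n) = c' / θ * Real.log n := by ring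
        linarith
      have hK0' : 0 < K := by linarith
      have hA : c' / θ * Real.log n + 1 ≤ (c' / θ + 1) * Real.log n := by nlinarith
      have hB : (c' / θ + 1) * Real.log n < K * (1 - ε / θ) * Real.log n := by nlinarith
      have hD : 0 < ε / θ := by positivity
      have hjK : ((i - k + 1 : ℕ) : ℝ) < K * Real.log n := by nlinarith
      have h15 := horb (i - k + 1) hjK
      have h16 : ((i - k + 1 : ℕ) : ℝ) / K < (1 - ε / θ) * Real.log n := by
        rw [div_lt_iff₀ hK0']; nlinarith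
      nlinarith
  have hTi : (0 : ℝ) < ((T^[i] m : ℕ) : ℝ) := by exact_mod_cast iter_pos hm1 i
  rw [← Real.log_lt_log_iff (Real.rpow_pos_of_pos hm0 _) hTi, Real.log_rpow hm0]
  refine lt_of_le_of_lt ?_ key
  have h17 : ε * Real.log m ≤ ε * (1 / θ * Real.log n) := mul_le_mul_of_nonneg_left hlogm hε0.le
  have h18 : ε * (1 / θ * Real.log n) = ε / θ * Real.log n := by ring
  linarith

/-- dichotomy -/
theorem gap {s : ℝ} (hs : 0 < s) (hU : Uniform s) (hQ : ¬ ∃ c, Q1 c) {c ε β : ℝ} (hε0 : 0 < ε) (hε1 : ε < 1)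
    (hβ : β < s * (1 - ε)) :
    ∃ᶠ x : ℕ in atTop, (x : ℝ) ^ β ≤ (F c ε x).ncard := by
  by_cases hall : ∀ n : ℕ, 1 ≤ n → ∃ k, T^[k] n = 1
  · exact caseB hs hU hall (fun c hc => hQ ⟨c, hc⟩) hε0 hε1 hβ
  · push Not at hall
    obtain ⟨n0, hn0, hbad⟩ := hall
    exact (caseA hU hn0 hbad c ε β (by nlinarith)).frequently

theorem not_frequently_of_le {f : ℕ → ℕ} {A β β' : ℝ} (hβ : β < β')
    (hf : ∀ x : ℕ, (f x : ℝ) ≤ A * (x : ℝ) ^ β) :
    ¬ ∃ᶠ x : ℕ in atTop, (x : ℝ) ^ β' ≤ f x := by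
  rw [Filter.not_frequently]
  have hpow : Tendsto (fun x : ℕ => (x : ℝ) ^ (β' - β)) atTop atTop :=
    (tendsto_rpow_atTop (by linarith)).comp tendsto_natCast_atTop_atTop
  filter_upwards [hpow.eventually_gt_atTop A, eventually_ge_atTop 1] with x hx hx1
  have hx0 : (0 : ℝ) < x := by exact_mod_cast hx1
  rw [not_le]
  refine (hf x).trans_lt ?_
  have hb : 0 < (x : ℝ) ^ β := Real.rpow_pos_of_pos hx0 _
  rw [Real.rpow_sub hx0, lt_div_iff₀ hb] at hx
  exact hx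

theorem empty_of_Q1 {c ε : ℝ} (hε0 : 0 < ε) (h : Q1 c) (x : ℕ) :
    E c x = ∅ ∧ F c ε x = ∅ := by
  have hE : E c x = ∅ := by
    rw [Set.eq_empty_iff_forall_notMem]
    rintro m ⟨hm1, hm2, h3⟩
    rcases Nat.lt_or_ge m 2 with hm | hm
    · have : m = 1 := by omega
      subst this
      exact h3 0 (by simp) rfl
    · obtain ⟨k, hk1, hk2⟩ := h m hm
      exact h3 k hk2 hk1
  exact ⟨hE, Set.subset_empty_iff.1 (hE ▸ F_subset_E hε0.le x)⟩

theorem iff_descent {s : ℝ} (hs : 0 < s) (hU : Uniform s) {ε : ℝ} (hε0 : 0 < ε) (hε1 : ε < 1) :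
    (∃ c, Q1 c) ↔ ∃ c β A : ℝ, β < s * (1 - ε) ∧
      ∀ x : ℕ, ((F c ε x).ncard : ℝ) ≤ A * (x : ℝ) ^ β := by
  constructor
  · rintro ⟨c, hc⟩
    refine ⟨c, 0, 0, by nlinarith, fun x => ?_⟩
    rw [(empty_of_Q1 hε0 hc x).2]; simp
  · rintro ⟨c, β, A, hβ, hA⟩
    by_contra hQ
    obtain ⟨β', h1, h2⟩ := exists_between hβ
    exact not_frequently_of_le h1 hA (gap hs hU hQ hε0 hε1 h2)

theorem iff_exceptional {s : ℝ} (hs : 0 < s) (hU : Uniform s) :
    (∃ c, Q1 c) ↔ ∃ c β A : ℝ, β < s ∧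
      ∀ x : ℕ, ((E c x).ncard : ℝ) ≤ A * (x : ℝ) ^ β := by
  constructor
  · rintro ⟨c, hc⟩
    refine ⟨c, 0, 0, hs, fun x => ?_⟩
    rw [(empty_of_Q1 one_pos hc x).1]; simp
  · rintro ⟨c, β, A, hβ, hA⟩
    obtain ⟨ε, hε0, hε1, hε⟩ : ∃ ε : ℝ, 0 < ε ∧ ε < 1 ∧ β < s * (1 - ε) := by
      have h1 : 0 < (s - β) / (2 * s) := div_pos (by linarith) (by linarith)
      have h2 : (s - β) / (2 * s) * s = (s - β) / 2 := by field_simp
      refine ⟨min (1 / 2) ((s - β) / (2 * s)), lt_min (by norm_num) h1, ?_, ?_⟩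
      · exact (min_le_left _ _).trans_lt (by norm_num)
      · have := min_le_right (1 / 2 : ℝ) ((s - β) / (2 * s))
        nlinarith
    refine (iff_descent hs hU hε0 hε1).2 ⟨c, β, A, hε, fun x => le_trans ?_ (hA x)⟩
    exact_mod_cast Set.ncard_le_ncard (F_subset_E hε0.le x) (E_finite c x)

end H20CollatzS
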